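import Pool.Agent.Q170.RN.SVD

/-! No algorithm using the sketch `(Ω, AΩ, A^*AΩ)` beats the randomized SVD in the worst case. -/

namespace Pool.Agent.Results.MP_569b71_an.SvdLowerBound
open MeasureTheory Matrix Q170.RN

/-- For every random matrix `Ω` (of law `μ`) and every measurable algorithm fed with
`(Ω, AΩ, A^*AΩ)`, the supremum of `ρ_q` over the matrices of rank `r` is at least
`(r-ℓ)/(r-q) · (1 + q/(ℓ-q-α))`, with `α = 1` over `ℝ` and `α = 0` over `ℂ`. -/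
theorem result :
    (∀ n ℓ d q r : ℕ, ℓ ≤ r → r ≤ d → r ≤ n → q + 1 < ℓ →
      ∀ μ : Measure (Matrix (Fin n) (Fin ℓ) ℝ), IsProbabilityMeasure μ →
      ∀ ALG : Matrix (Fin n) (Fin ℓ) ℝ × Matrix (Fin d) (Fin ℓ) ℝ × Matrix (Fin n) (Fin ℓ) ℝ →
        Matrix (Fin d) (Fin n) ℝ, Measurable ALG →
      ENNReal.ofReal (((r : ℝ) - ℓ) / ((r : ℝ) - q) * (1 + (q : ℝ) / ((ℓ : ℝ) - q - 1))) ≤
        worstSVD q r μ ALG) ∧
    (∀ n ℓ d q r : ℕ, ℓ ≤ r → r ≤ d → r ≤ n → q < ℓ →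
      ∀ μ : Measure (Matrix (Fin n) (Fin ℓ) ℂ), IsProbabilityMeasure μ →
      ∀ ALG : Matrix (Fin n) (Fin ℓ) ℂ × Matrix (Fin d) (Fin ℓ) ℂ × Matrix (Fin n) (Fin ℓ) ℂ →
        Matrix (Fin d) (Fin n) ℂ, Measurable ALG →
      ENNReal.ofReal (((r : ℝ) - ℓ) / ((r : ℝ) - q) * (1 + (q : ℝ) / ((ℓ : ℝ) - q))) ≤
        worstSVD q r μ ALG) := by
  constructor
  · intro n ℓ d q r hℓ hd hn hq μ hμ ALG hALG
    have h := svd_main (𝕜 := ℝ) (a := 1) (by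
      change (1 : ℝ) = bet ℝ * ((1 : ℕ) : ℝ)
      rw [bet_eq]
      change (1 : ℝ) = (2 - 1) * ((1 : ℕ) : ℝ)
      norm_num) hℓ hd hn hq μ ALG hALG
    simpa using h
  · intro n ℓ d q r hℓ hd hn hq μ hμ ALG hALG
    have h := svd_main (𝕜 := ℂ) (a := 0) (by
      change (0 : ℝ) = bet ℂ * ((0 : ℕ) : ℝ)
      simp) hℓ hd hn (by simpa using hq) μ ALG hALG
    simpa using h

end Pool.Agent.Results.MP_569b71_an.SvdLowerBound
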